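import Pool.Agent.Helper92.Ru.GoalsS

/-! S8: twisting the weights at one infinite place -/

set_option autoImplicit false

open NumberField

namespace Pool.Agent.Helper92.Ru

theorem twist_mult_cases {k : Type} [Field k] (v : InfinitePlace k) : v.mult = 1 ∨ v.mult = 2 := by
  unfold InfinitePlace.mult
  split_ifs <;> simp

theorem twist_of_dav : Dav → Twist := by
  intro hDav k _ _ T ι _ _ _ A hA v0
  obtain ⟨C, hC1, hC⟩ := hDav (Fintype.card ι)
  have hC0 : 0 < C := lt_of_lt_of_le one_pos hC1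
  refine ⟨1 / C ^ 2, by positivity, ?_, ?_⟩
  · rw [div_le_one (by positivity)]
    exact one_le_pow₀ hC1
  intro w hw x hx
  set m := v0.mult with hm
  have hm0 : m ≠ 0 := v0.mult_pos.ne'
  have hdet := hA (Sum.inl v0)
  let f : (ι → k) →ₗ[k] (ι → k) := (A (Sum.inl v0)).mulVecLin
  have hfinj : Function.Injective f := by
    intro a b hab
    exact Matrix.mulVec_injective_of_isUnit
      ((Matrix.isUnit_iff_isUnit_det _).2 (isUnit_iff_ne_zero.2 hdet)) hab
  have hz : LinearIndependent k (fun j => f (x j)) := by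
    have := hx.map' f (LinearMap.ker_eq_bot.2 hfinj)
    exact this
  have hW : ∀ i, 0 < w (Sum.inl v0) i ^ ((m : ℝ)⁻¹) := fun i => Real.rpow_pos_of_pos (hw _ i) _
  have hWm : ∀ i, (w (Sum.inl v0) i ^ ((m : ℝ)⁻¹)) ^ m = w (Sum.inl v0) i := fun i =>
    Real.rpow_inv_natCast_pow (hw _ i).le hm0
  obtain ⟨π, hπ⟩ := hC k v0 ι rfl (fun i => w (Sum.inl v0) i ^ ((m : ℝ)⁻¹)) hW
    (fun j => f (x j)) hz
  refine ⟨π, ?_⟩
  intro ρ hρ hanti w' hw' hw'0 j y hy
  have hy' : f y ∈ Submodule.span k ((fun j => f (x j)) '' {j' | j' ≤ j}) := by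
    have h1 : f y ∈ (Submodule.span k (x '' {j' | j' ≤ j})).map f :=
      Submodule.mem_map_of_mem hy
    rw [Submodule.map_span, Set.image_image] at h1
    exact h1
  -- the factor at `v0`
  have hfac : 1 / C ^ 2 * ρ j *
      (⨆ i, nS (T := T) (Sum.inl v0) ((A (Sum.inl v0)).mulVec y i) / w (Sum.inl v0) i) ≤
      ⨆ i, nS (T := T) (Sum.inl v0) ((A (Sum.inl v0)).mulVec y i) / w' (Sum.inl v0) i := by
    obtain ⟨i, hi⟩ := exists_eq_ciSup_of_finite
      (f := fun i => nS (T := T) (Sum.inl v0) ((A (Sum.inl v0)).mulVec y i) / w (Sum.inl v0) i)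
    rw [← hi]
    obtain ⟨j', hj', hle⟩ := hπ j (f y) hy' i
    have hle2 := pow_le_pow_left₀ (div_nonneg (apply_nonneg v0 _) (hW i).le) hle m
    rw [mul_pow, div_pow, div_pow, hWm, hWm] at hle2
    have hnS : ∀ i, nS (T := T) (Sum.inl v0) ((A (Sum.inl v0)).mulVec y i) = v0 (f y i) ^ m :=
      fun i => rfl
    have hCm : C ^ m ≤ C ^ 2 := by
      apply pow_le_pow_right₀ hC1
      rcases twist_mult_cases v0 with h | h <;> omega
    have hwπ : 0 < w (Sum.inl v0) (π j') := hw _ _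
    have hρ' : 0 < ρ j' := hρ j'
    have hρle : ρ j ≤ ρ j' := hanti hj'
    have ha : 0 ≤ v0 (f y (π j')) ^ m := pow_nonneg (apply_nonneg v0 _) _
    have hbdd : BddAbove (Set.range fun i =>
        nS (T := T) (Sum.inl v0) ((A (Sum.inl v0)).mulVec y i) / w' (Sum.inl v0) i) :=
      Set.finite_range _ |>.bddAbove
    refine le_trans ?_ (le_ciSup hbdd (π j'))
    simp only [hnS]
    rw [hw'0 j', div_div_eq_mul_div]
    calc 1 / C ^ 2 * ρ j * (v0 (f y i) ^ m / w (Sum.inl v0) i)
        ≤ 1 / C ^ 2 * ρ j * (C ^ m * (v0 (f y (π j')) ^ m / w (Sum.inl v0) (π j'))) := by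
          apply mul_le_mul_of_nonneg_left hle2
          exact mul_nonneg (by positivity) (hρ j).le
      _ = (C ^ m / C ^ 2) * (ρ j * (v0 (f y (π j')) ^ m / w (Sum.inl v0) (π j'))) := by ring
      _ ≤ 1 * (ρ j' * (v0 (f y (π j')) ^ m / w (Sum.inl v0) (π j'))) := by
          apply mul_le_mul
          · rw [div_le_one (by positivity)]
            exact hCm
          · exact mul_le_mul_of_nonneg_right hρle (div_nonneg ha hwπ.le)
          · exact mul_nonneg (hρ j).le (div_nonneg ha hwπ.le)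
          · exact zero_le_one
      _ = v0 (f y (π j')) ^ m * ρ j' / w (Sum.inl v0) (π j') := by ring
  -- the product
  classical
  unfold HH
  rw [← Finset.mul_prod_erase Finset.univ
      (fun v => ⨆ i, nS v ((A v).mulVec y i) / w v i) (Finset.mem_univ (Sum.inl v0)),
    ← Finset.mul_prod_erase Finset.univ
      (fun v => ⨆ i, nS v ((A v).mulVec y i) / w' v i) (Finset.mem_univ (Sum.inl v0))]
  have hrest : ∏ v ∈ Finset.univ.erase (Sum.inl v0 : SP k T),
      (⨆ i, nS v ((A v).mulVec y i) / w' v i) =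
      ∏ v ∈ Finset.univ.erase (Sum.inl v0 : SP k T), ⨆ i, nS v ((A v).mulVec y i) / w v i := by
    apply Finset.prod_congr rfl
    intro v hv
    have hne := Finset.ne_of_mem_erase hv
    congr 1
    funext i
    rw [hw' v i hne]
  rw [hrest]
  have hnn : 0 ≤ ∏ v ∈ Finset.univ.erase (Sum.inl v0 : SP k T),
      ⨆ i, nS v ((A v).mulVec y i) / w v i :=
    Finset.prod_nonneg fun v _ => Real.iSup_nonneg fun i => div_nonneg (nS_nonneg v _) (hw v i).le
  calc _ = (1 / C ^ 2 * ρ j *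
      (⨆ i, nS (T := T) (Sum.inl v0) ((A (Sum.inl v0)).mulVec y i) / w (Sum.inl v0) i)) *
      ∏ v ∈ Finset.univ.erase (Sum.inl v0 : SP k T), ⨆ i, nS v ((A v).mulVec y i) / w v i := by
        ring
    _ ≤ _ := mul_le_mul_of_nonneg_right hfac hnn

end Pool.Agent.Helper92.Ru
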